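import Pool.Agent.MWGR.StmtsD

/-!
# Block MWGR, row NT0 (helper4)
-/

set_option autoImplicit false

namespace Pool.Agent.MWGR.H4

open Pool.Agent.Helper14_MV Pool.Agent.Helper2_MV Pool.Agent.MVO Pool.Agent.MWL Pool.Agent.MWS
  Pool.Agent.MWH

/-- `2` becomes `X k 2` -/
def sf (k : ℕ) (c : ℕ) : List ℕ := if c = 2 then X k ++ [2] else [c]

theorem flat_X (k m : ℕ) : (X m).flatMap (sf k) = X m := by
  induction m with
  | zero => rfl
  | succ m ih =>
    show (0 :: List.replicate m 0).flatMap (sf k) = 0 :: List.replicate m 0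
    rw [List.flatMap_cons]
    show [0] ++ (X m).flatMap (sf k) = _
    rw [ih]
    rfl

theorem nt0 (hE : ExgStmt) (hA : NtaStmt) : Nt0Stmt := by
  intro n θ hB s s' t' r r' hs hst ht hr hr' h
  have hn := hB.pos
  have h1 : RR θ (X s ++ 1 :: 2 :: [1]) (X s' ++ 1 :: (X t' ++ [2, 1])) := by
    have h2 := hA n θ hB (X s) [] [] (X s') (X t') [] 1 2 r r' hr hr' (by norm_num) (by
      intro D hD
      simp only [List.mem_cons, List.not_mem_nil, or_false] at hD
      rcases hD with rfl | rfl | rfl | rfl | rfl | rfl <;>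
        simp [List.mem_replicate])
    have h3 := h2 (by simpa using h)
    simpa using h3
  have h2 : RR θ (X s ++ 1 :: (X n ++ [2, 1])) (X s' ++ 1 :: (X (t' + n) ++ [2, 1])) := by
    have h3 := h1.sub (sf n)
    have e1 : (X s ++ 1 :: 2 :: [1]).flatMap (sf n) = X s ++ 1 :: (X n ++ [2, 1]) := by
      rw [List.flatMap_append, flat_X]
      simp [sf]
    have e2 : (X s' ++ 1 :: (X t' ++ [2, 1])).flatMap (sf n) =
        X s' ++ 1 :: (X (t' + n) ++ [2, 1]) := by
      rw [List.flatMap_append, flat_X, List.flatMap_cons, List.flatMap_append, flat_X]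
      have e3 : X (t' + n) = X t' ++ X n := List.replicate_add t' n 0
      have e4 : [2, 1].flatMap (sf n) = X n ++ [2, 1] := by simp [sf]
      rw [e3, e4, List.append_assoc]
      rfl
    rw [e1, e2] at h3
    exact h3
  have hmod : t' + n ≡ t' [MOD n] := by
    simp [Nat.ModEq]
  have h3 : RR θ (X s' ++ 1 :: (X (t' + n) ++ [2, 1])) (X s' ++ 1 :: (X t' ++ [2, 1])) := by
    have h4 := hE n θ hB (X s' ++ [1]) [2, 1] 0 (t' + n) t' hmod
    have h5 : RR θ ((X s' ++ [1]) ++ (X (t' + n) ++ [2, 1])) ((X s' ++ [1]) ++ (X t' ++ [2, 1])) := by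
      rcases Nat.eq_zero_or_pos s' with h0 | h0
      · exact h4.2.1 (by omega) (by omega)
      · exact h4.1 (by
          refine List.mem_append.2 (Or.inl ?_)
          exact List.mem_replicate.2 ⟨by omega, rfl⟩) (by omega) ht
    simpa using h5
  have h4 : RR θ (X s ++ 1 :: 2 :: [1]) (X s ++ 1 :: (X n ++ [2, 1])) :=
    θ.trans h1 (θ.trans (RR.symm h3) (RR.symm h2))
  obtain ⟨m, rfl⟩ : ∃ m, n = m + 1 := ⟨n - 1, by omega⟩
  have hu : m * s + 2 + s ≡ 2 [MOD (m + 1)] := by
    have : m * s + 2 + s = 2 + (m + 1) * s := by ring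
    rw [this]
    simp [Nat.ModEq]
  have key : ∀ q : List ℕ, RR θ (X (m * s + 2) ++ (X s ++ q)) (X 2 ++ q) := by
    intro q
    have h5 := (hE (m + 1) θ hB [] q 0 (m * s + 2 + s) 2 hu).2.1 (by omega) (by omega)
    have e3 : List.replicate (m * s + 2 + s) 0 = X (m * s + 2) ++ X s :=
      List.replicate_add (m * s + 2) s 0
    rw [List.nil_append, List.nil_append, e3, List.append_assoc] at h5
    exact h5
  have h6 := (RR.refl (β := θ) (X (m * s + 2))).append h4
  exact θ.trans (RR.symm (key _)) (θ.trans h6 (key _))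

end Pool.Agent.MWGR.H4
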